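import Pool.Agent.H879R2.SC.Main

set_option autoImplicit false

namespace Pool.Agent.Results.MP_e3602a_gt.EnergyIdentityFails

open Pool.Agent.H879R2.SC MeasureTheory Filter
open scoped Topology

/-- **The scalar curvature energy identity fails in every dimension `n ≥ 2`, even for `Ric ≥ 0`.**

For every `n ≥ 2` there are `v > 0` and a sequence of complete smooth Riemannian metrics `G j` on
`ℝⁿ` with `Ric ≥ 0` (hence `Ric ≥ -λ` for every `λ ≥ 0`) and `Vol(B_1(p j)) ≥ v`, converging in
the pointed Gromov–Hausdorff sense to a proper (so complete) metric space `(X,x)`,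
such that the transported scalar
curvature measures converge weakly to a Radon measure for some choice of approximations, but,
along every subsequence and for every choice of Borel Gromov–Hausdorff approximations, they do
not converge to any signed Radon measure `R ℋⁿ + θ ℋⁿ⁻¹⌞Σ + ρ ℋⁿ⁻²⌞S` (`Σ`, `S` arbitrary sets,
`R`, `θ`, `ρ` arbitrary locally integrable densities). -/
theorem result : ∀ n : ℕ, 2 ≤ n → ∃ v : ℝ, 0 < v ∧
    ∃ (G : ℕ → RMetric n) (p : ℕ → Rn n) (X : Type) (_ : MetricSpace X) (_ : MeasurableSpace X)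
      (_ : BorelSpace X) (x : X),
      ProperSpace X ∧ (∀ j, (G j).Complete) ∧ (∀ j, (G j).RicciGE 0) ∧
      (∀ j, ENNReal.ofReal v ≤ (G j).vol {y | (G j).dist (p j) y < 1}) ∧
      (∃ (ε : ℕ → ℝ) (φ : ℕ → Rn n → X) (μ : Measure X), GHConverges G p x ε φ ∧
        IsFiniteMeasureOnCompacts μ ∧ ∀ f : X → ℝ, Continuous f → HasCompactSupport f →
          Tendsto (fun j => transported (G j) (p j) (ε j) (φ j) f) atTop (𝓝 (∫ x, f x ∂μ))) ∧
      ∀ σ : ℕ → ℕ, StrictMono σ → ∀ (ε : ℕ → ℝ) (φ : ℕ → Rn n → X),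
        GHConverges (G ∘ σ) (p ∘ σ) x ε φ →
        ¬ ∃ L : (X → ℝ) → ℝ, HasForm n X L ∧
          ∀ f : X → ℝ, Continuous f → HasCompactSupport f →
            Tendsto (fun j => transported (G (σ j)) (p (σ j)) (ε j) (φ j) f) atTop
              (𝓝 (L f)) :=
  main

end Pool.Agent.Results.MP_e3602a_gt.EnergyIdentityFails
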